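import Mathlib

namespace Pool.Agent.Results.MP_f888fa_lc.Finite

universe u v

inductive Tm : Type
  | var : ℕ → Tm
  | zero : Tm
  | one : Tm
  | bot : Tm
  | neg : Tm → Tm
  | add : Tm → Tm → Tm
  | mul : Tm → Tm → Tm
  | div : Tm → Tm → Tm

structure Alg (A : Type u) where
  zero : A
  one : A
  bot : A
  neg : A → A
  add : A → A → A
  mul : A → A → A
  div : A → A → A

def Tm.eval {A : Type u} (M : Alg A) (ρ : ℕ → A) : Tm → A
  | .var n => ρ n
  | .zero => M.zero
  | .one => M.one
  | .bot => M.bot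
  | .neg s => M.neg (s.eval M ρ)
  | .add s t => M.add (s.eval M ρ) (t.eval M ρ)
  | .mul s t => M.mul (s.eval M ρ) (t.eval M ρ)
  | .div s t => M.div (s.eval M ρ) (t.eval M ρ)

structure Cond where
  hyps : List (Tm × Tm)
  lhs : Tm
  rhs : Tm

def Holds {A : Type u} (M : Alg A) (φ : Cond) : Prop :=
  ∀ ρ : ℕ → A, (∀ e ∈ φ.hyps, e.1.eval M ρ = e.2.eval M ρ) → φ.lhs.eval M ρ = φ.rhs.eval M ρ

open Classical in
noncomputable def meadow (F : Type u) [Field F] : Alg (Option F) where
  zero := some 0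
  one := some 1
  bot := none
  neg x := x.map fun a => -a
  add x y := x.bind fun a => y.map fun b => a + b
  mul x y := x.bind fun a => y.map fun b => a * b
  div x y := x.bind fun a => y.bind fun b => if b = 0 then none else some (a * b⁻¹)

def num : ℕ → Tm
  | 0 => .zero
  | 1 => .one
  | n + 2 => .add (num (n + 1)) .one

def phi (p : ℕ) : Cond where
  hyps := [(.mul (.div .zero (num 2)) (.div .zero (num 3)),
    .mul (.div .zero (num 2)) (.div .zero (num p)))]
  lhs := .div .zero (num 3)
  rhs := .div .zero (num p)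

open Tm in
def ax : List Cond :=
  [⟨[], add (add (var 0) (var 1)) (var 2), add (var 0) (add (var 1) (var 2))⟩,
   ⟨[], mul (add (var 0) (var 1)) (var 2), add (mul (var 0) (var 2)) (mul (var 1) (var 2))⟩,
   ⟨[], mul one (var 0), var 0⟩,
   ⟨[], mul zero one, zero⟩,
   ⟨[(mul zero (var 0), zero)], mul zero (add (var 0) one), zero⟩,
   ⟨[(mul (div zero (var 0)) (div zero (var 1)), mul (div zero (var 0)) (div zero (var 2))),
     (mul zero (var 2), zero), (var 1, add (var 0) one),
     (var 2, add (mul (var 3) (var 0)) one), (var 2, add (mul (var 4) (var 1)) one)],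
     div zero (var 1), div zero (var 2)⟩,
   ⟨[(mul (div zero (var 0)) (div zero (var 1)), mul (div zero (var 0)) (div zero (var 2))),
     (mul zero (var 2), zero), (var 1, add (var 0) one),
     (var 2, add (mul (var 3) (var 0)) one), (add (var 2) one, mul (var 4) (var 1))],
     div zero (var 1), div zero (var 2)⟩]

lemma sound (F : Type u) [Field F] : ∀ φ ∈ ax, Holds (meadow F) φ := by
  intro φ hφ
  simp only [ax, List.mem_cons, List.not_mem_nil, or_false] at hφ
  rcases hφ with rfl | rfl | rfl | rfl | rfl | rfl | rfl <;> intro ρ h <;>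
    simp only [List.mem_cons, List.not_mem_nil, or_false, forall_eq_or_imp, forall_eq, Tm.eval,
      meadow] at h ⊢
  · cases ρ 0 <;> cases ρ 1 <;> cases ρ 2 <;> simp [add_assoc]
  · cases ρ 0 <;> cases ρ 1 <;> cases ρ 2 <;> simp [add_mul]
  · cases ρ 0 <;> simp
  · simp
  · revert h; cases ρ 0 <;> simp
  · revert h
    rcases ρ 0 with _ | x <;> rcases ρ 1 with _ | y <;> rcases ρ 2 with _ | z <;>
      rcases ρ 3 with _ | a <;> rcases ρ 4 with _ | b <;> simp
    intro h1 h2 h3 h4
    by_cases hy : y = 0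
    · have hz : z ≠ 0 := by
        intro hz; rw [hy, hz] at h4; simp at h4
      have hx : x ≠ 0 := by
        intro hx; rw [hy, hx] at h2; simp at h2
      simp [hx, hy, hz] at h1
    · by_cases hz : z = 0
      · have hx : x ≠ 0 := by
          intro hx; rw [hz, hx] at h3; simp at h3
        simp [hx, hy, hz] at h1
      · simp [hy, hz]
  · revert h
    rcases ρ 0 with _ | x <;> rcases ρ 1 with _ | y <;> rcases ρ 2 with _ | z <;>
      rcases ρ 3 with _ | a <;> rcases ρ 4 with _ | b <;> simp
    intro h1 h2 h3 h4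
    by_cases hy : y = 0
    · have hz : z ≠ 0 := by
        intro hz; rw [hy, hz] at h4; simp at h4
      have hx : x ≠ 0 := by
        intro hx; rw [hy, hx] at h2; simp at h2
      simp [hx, hy, hz] at h1
    · by_cases hz : z = 0
      · have hx : x ≠ 0 := by
          intro hx; rw [hz, hx] at h3; simp at h3
        simp [hx, hy, hz] at h1
      · simp [hy, hz]

theorem result : ∃ E : List Cond,
    (∀ φ ∈ E, ∀ (F : Type u) [Field F], Holds (meadow F) φ) ∧
    ∀ p : ℕ, p.Prime → 5 ≤ p → ∀ (A : Type v) (M : Alg A), (∀ φ ∈ E, Holds M φ) →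
      Holds M (phi p) := by
  refine ⟨ax, fun φ hφ F _ => sound F φ hφ, fun p hp h5 A M hM ρ hρ => ?_⟩
  simp only [ax, List.mem_cons, List.not_mem_nil, or_false, forall_eq_or_imp, forall_eq,
    Holds, Tm.eval] at hM
  obtain ⟨a1, a2, a3, a4, a5, a6, a7⟩ := hM
  set N : ℕ → A := fun n => (num (n + 1)).eval M ρ with hN
  have N0 : N 0 = M.one := rfl
  have Ns : ∀ n, N (n + 1) = M.add (N n) M.one := fun n => rfl
  have assoc : ∀ x y z, M.add (M.add x y) z = M.add x (M.add y z) := fun x y z =>
    a1 (fun i => if i = 0 then x else if i = 1 then y else z) (by simp)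
  have dist : ∀ x y z, M.mul (M.add x y) z = M.add (M.mul x z) (M.mul y z) := fun x y z =>
    a2 (fun i => if i = 0 then x else if i = 1 then y else z) (by simp)
  have onem : ∀ x, M.mul M.one x = x := fun x => a3 (fun _ => x) (by simp)
  have Nadd : ∀ m n, N (m + n + 1) = M.add (N m) (N n) := by
    intro m n
    induction n with
    | zero => rfl
    | succ n ih => rw [← add_assoc, Ns, ih, assoc, Ns]
  have Nmul : ∀ k n, N (k * (n + 1) + n) = M.mul (N k) (N n) := by
    intro k n
    induction k with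
    | zero => rw [N0, onem]; simp
    | succ k ih =>
      rw [Ns k, dist, ← ih, onem, ← Nadd]; congr 1; ring
  have Nz : ∀ n, M.mul M.zero (N n) = M.zero := by
    intro n
    induction n with
    | zero => exact a4 ρ (by simp)
    | succ n ih => exact a5 (fun _ => N n) ih
  have h2 : ¬ 2 ∣ p := fun h => by
    have := (Nat.prime_dvd_prime_iff_eq Nat.prime_two hp).1 h; omega
  have h3 : ¬ 3 ∣ p := fun h => by
    have := (Nat.prime_dvd_prime_iff_eq Nat.prime_three hp).1 h; omega
  obtain ⟨q, rfl⟩ : ∃ q, p = q + 1 := ⟨p - 1, by omega⟩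
  have hh := hρ _ (List.mem_singleton_self _)
  obtain ⟨k, hk⟩ : ∃ k, q = k * (1 + 1) + 1 + 1 := ⟨q / 2 - 1, by omega⟩
  have e2 : N q = M.add (M.mul (N k) (N 1)) M.one := by rw [← Nmul, ← Ns, ← hk]
  by_cases h : q % 3 = 0
  · obtain ⟨l, hl⟩ : ∃ l, q = l * (2 + 1) + 2 + 1 := ⟨q / 3 - 1, by omega⟩
    have e3 : N q = M.add (M.mul (N l) (N 2)) M.one := by rw [← Nmul, ← Ns, ← hl]
    exact a6 (fun i => if i = 0 then N 1 else if i = 1 then N 2 else if i = 2 then N q else
      if i = 3 then N k else N l) ⟨hh, Nz q, rfl, e2, e3⟩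
  · obtain ⟨l, hl⟩ : ∃ l, q + 1 = l * (2 + 1) + 2 := ⟨(q + 1) / 3, by omega⟩
    have e3 : M.add (N q) M.one = M.mul (N l) (N 2) := by rw [← Nmul, ← Ns, ← hl]
    exact a7 (fun i => if i = 0 then N 1 else if i = 1 then N 2 else if i = 2 then N q else
      if i = 3 then N k else N l) ⟨hh, Nz q, rfl, e2, e3⟩

end Pool.Agent.Results.MP_f888fa_lc.Finite
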